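import Mathlib
import Pool.Agent.Results.MP_8121b4_gt.LensSU5
import Pool.Agent.Helper133.Brouwer

/-!
Topology behind Lefschetz pencils: a plane field on the 4-ball is not close to the field of complex
lines on its boundary.
-/

set_option autoImplicit false
open Metric Set Filter Topology Complex

noncomputable section
namespace Pool.Agent.Y525.Lef

/-- `ℂ²` -/
abbrev C2 : Type := EuclideanSpace ℂ (Fin 2)

/-- the unit sphere of `ℂ²` -/
abbrev S3 : Type := sphere (0 : C2) 1

theorem finrank_C2 : Module.finrank ℝ C2 = 4 := by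
  rw [finrank_real_of_complex]
  simp

theorem exists_log (c : S3 → ℂ) (hc : Continuous c) (h0 : ∀ z, c z ≠ 0) :
    ∃ L : S3 → ℂ, Continuous L ∧ ∀ z, exp (L z) = c z := by
  have h1 : SimplyConnectedSpace S3 := Pool.Agent.Results.MP_8121b4_gt.LensSU5.simplyConnected_S3
  have h2 : Fact (Module.finrank ℝ C2 = 3 + 1) := ⟨finrank_C2⟩
  have h3 : LocallyPathConnectedSpace S3 :=
    ChartedSpace.locallyPathConnectedSpace (EuclideanSpace ℝ (Fin 3)) S3
  obtain ⟨a₀⟩ : Nonempty S3 := inferInstance
  obtain ⟨Φ, ⟨-, hΦ⟩, -⟩ := Complex.isCoveringMapOn_exp.existsUnique_continuousMap_lifts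
    (⟨c, hc⟩ : C(S3, ℂ)) (a₀ := a₀) (e₀ := Complex.log (c a₀)) (Complex.exp_log (h0 a₀))
    (fun a => h0 a)
  exact ⟨Φ, Φ.continuous, fun a => congrFun hΦ a⟩

/-- Brouwer in `ℂ²`. -/
theorem exists_zero_C2 (f : C2 → C2) (hf : Continuous f) (ρ : ℝ) (hρ : 0 < ρ)
    (hid : ∀ x, ρ ≤ ‖x‖ → f x = x) : ∃ x, f x = 0 := by
  by_contra hno
  push Not at hno
  -- a bounded map without fixed points
  have hb : ∃ x, (x - f x) + 0 = x ∧ f x = 0 := by
    obtain ⟨x, hx⟩ := Pool.Agent.Helper133.Brouwer.brouwer (fun x => x - f x)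
      (continuous_id.sub hf) (sSup ((fun x => ‖x - f x‖) '' closedBall (0 : C2) ρ)) (by
        intro x
        have hbdd : BddAbove ((fun x => ‖x - f x‖) '' closedBall (0 : C2) ρ) :=
          ((isCompact_closedBall (0 : C2) ρ).image (continuous_id.sub hf).norm).bddAbove
        by_cases hx : x ∈ closedBall (0 : C2) ρ
        · exact le_csSup hbdd ⟨x, hx, rfl⟩
        · rw [mem_closedBall_zero_iff, not_le] at hx
          change ‖x - f x‖ ≤ _
          rw [hid x hx.le, sub_self, norm_zero]
          refine le_csSup_of_le hbdd ⟨0, mem_closedBall_self hρ.le, rfl⟩ (norm_nonneg _))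
    have h2 : f x = 0 := by
      have h3 : x - f x = x := hx
      exact sub_eq_self.1 h3
    exact ⟨x, by rw [h2]; simp, h2⟩
  obtain ⟨x, -, hx⟩ := hb
  exact hno x hx

/-- clamp to `[0,1]` -/
def clamp (t : ℝ) : ℝ := max 0 (min 1 t)

theorem continuous_clamp : Continuous clamp := by
  unfold clamp
  fun_prop

theorem clamp_nonneg (t : ℝ) : 0 ≤ clamp t := le_max_left _ _

theorem clamp_le_one (t : ℝ) : clamp t ≤ 1 := max_le zero_le_one (min_le_left _ _)

theorem clamp_of_nonpos {t : ℝ} (h : t ≤ 0) : clamp t = 0 := by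
  unfold clamp
  rw [min_eq_right (by linarith)]
  exact max_eq_left h

theorem clamp_of_one_le {t : ℝ} (h : 1 ≤ t) : clamp t = 1 := by
  unfold clamp
  rw [min_eq_left h]
  exact max_eq_right zero_le_one

/-- A nowhere zero map on the ball whose Hermitian product with the position vector has no zero on
the boundary does not exist. -/
theorem no_section (g : C2 → C2) (hg : ContinuousOn g (closedBall 0 1))
    (h0 : ∀ z ∈ closedBall (0 : C2) 1, g z ≠ 0)
    (h1 : ∀ z : C2, ‖z‖ = 1 → inner ℂ z (g z) ≠ 0) : False := by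
  -- the logarithm
  have hsub : ∀ z : S3, (z : C2) ∈ closedBall (0 : C2) 1 := fun z => sphere_subset_closedBall z.2
  obtain ⟨L, hL, hLe⟩ := exists_log (fun z : S3 => inner ℂ (z : C2) (g z)) (by
    have h2 : Continuous (fun z : S3 => g z) :=
      hg.comp_continuous continuous_subtype_val hsub
    exact continuous_subtype_val.inner h2) (fun z => h1 z (norm_eq_of_mem_sphere z))
  -- radial projection
  let pr : C2 → C2 := fun z => (max 1 ‖z‖)⁻¹ • z
  have hpos : ∀ z : C2, 0 < max 1 ‖z‖ := fun z => lt_of_lt_of_le one_pos (le_max_left _ _)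
  have hpr : Continuous pr := by
    refine Continuous.smul (Continuous.inv₀ (by fun_prop) fun z => (hpos z).ne') continuous_id
  have hprm : ∀ z, pr z ∈ closedBall (0 : C2) 1 := by
    intro z
    rw [mem_closedBall_zero_iff]
    simp only [pr, norm_smul, norm_inv, Real.norm_eq_abs, abs_of_pos (hpos z)]
    rw [inv_mul_le_iff₀ (hpos z), mul_one]
    exact le_max_right _ _
  have hgpr : Continuous fun z => g (pr z) := hg.comp_continuous hpr hprm
  -- the extended logarithm
  let Λ : C2 → ℂ := fun z => if h : z = 0 then 0 else L ⟨(‖z‖⁻¹ : ℝ) • z, by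
    rw [mem_sphere_zero_iff_norm, norm_smul, norm_inv, norm_norm,
      inv_mul_cancel₀ (norm_ne_zero_iff.2 h)]⟩
  have hΛ : ∀ z : C2, z ≠ 0 → ContinuousAt Λ z := by
    intro z hz
    have hU : IsOpen {z : C2 | z ≠ 0} := isOpen_ne
    have hc : ContinuousOn Λ {z : C2 | z ≠ 0} := by
      rw [continuousOn_iff_continuous_domRestrict]
      have e : ({z : C2 | z ≠ 0}).domRestrict Λ = fun w : {z : C2 | z ≠ 0} => L ⟨(‖(w : C2)‖⁻¹ : ℝ) • (w : C2), by
          rw [mem_sphere_zero_iff_norm, norm_smul, norm_inv, norm_norm,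
            inv_mul_cancel₀ (norm_ne_zero_iff.2 w.2)]⟩ := by
        funext w
        have hw : (w : C2) ≠ 0 := w.2
        simp only [Set.domRestrict_apply, Λ, dif_neg hw]
      rw [e]
      refine hL.comp (Continuous.subtype_mk ?_ _)
      refine Continuous.smul (Continuous.inv₀ (by fun_prop) fun w =>
        norm_ne_zero_iff.2 w.2) continuous_subtype_val
    exact hc.continuousAt (hU.mem_nhds hz)
  have hΛe : ∀ z : C2, 1 < ‖z‖ → exp (Λ z) = inner ℂ (pr z) (g (pr z)) := by
    intro z hz
    have hz0 : z ≠ 0 := by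
      rintro rfl
      rw [norm_zero] at hz
      linarith
    have e : pr z = (‖z‖⁻¹ : ℝ) • z := by
      simp only [pr, max_eq_right hz.le]
    simp only [Λ, dif_neg hz0]
    rw [hLe, e]
  -- the cut off logarithm
  let T : C2 → ℂ := fun z => (clamp (2 * (‖z‖ - 1)) : ℂ) * Λ z
  have hT : Continuous T := by
    rw [continuous_iff_continuousAt]
    intro z
    by_cases hz : z = 0
    · subst hz
      have h2 : ∀ᶠ w in 𝓝 (0 : C2), T w = 0 := by
        filter_upwards [ball_mem_nhds (0 : C2) one_pos] with w hw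
        rw [mem_ball_zero_iff] at hw
        simp only [T]
        rw [clamp_of_nonpos (by linarith)]
        simp
      exact (continuousAt_const (y := (0 : ℂ))).congr (h2.mono fun w hw => hw.symm)
    · have h2 : Continuous fun z : C2 => (clamp (2 * (‖z‖ - 1)) : ℂ) := by
        have h3 : Continuous fun z : C2 => clamp (2 * (‖z‖ - 1)) :=
          continuous_clamp.comp (by fun_prop)
        exact continuous_ofReal.comp h3
      exact h2.continuousAt.mul (hΛ z hz)
  -- the global map
  let Γ : C2 → C2 := fun z => (1 - clamp (‖z‖ - 2)) • (exp (- T z) • g (pr z)) +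
    clamp (‖z‖ - 2) • z
  have hcl : Continuous fun z : C2 => clamp (‖z‖ - 2) := continuous_clamp.comp (by fun_prop)
  have hΓ : Continuous Γ := by
    refine Continuous.add (Continuous.smul (continuous_const.sub hcl)
      (Continuous.smul (Complex.continuous_exp.comp hT.neg) hgpr)) (hcl.smul continuous_id)
  obtain ⟨z, hz⟩ := exists_zero_C2 Γ hΓ 3 (by norm_num) (by
    intro z hz
    simp only [Γ]
    rw [clamp_of_one_le (by linarith)]
    simp)
  simp only [Γ] at hz
  by_cases h2 : ‖z‖ ≤ 2
  · rw [clamp_of_nonpos (by linarith)] at hz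
    simp only [sub_zero, one_smul, zero_smul, add_zero] at hz
    exact (smul_ne_zero (exp_ne_zero _) (h0 _ (hprm z))) hz
  · rw [not_le] at h2
    have hT1 : T z = Λ z := by
      simp only [T]
      rw [clamp_of_one_le (by linarith)]
      simp
    have h3 := hΛe z (by linarith)
    set s := clamp (‖z‖ - 2) with hs
    have hs0 : 0 ≤ s := clamp_nonneg _
    have hs1 : s ≤ 1 := clamp_le_one _
    have h4 := congrArg (fun w => inner ℂ (pr z) w) hz
    simp only [inner_add_right, inner_zero_right] at h4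
    rw [hT1] at h4
    have h5 : inner ℂ (pr z) ((1 - s) • (exp (-Λ z) • g (pr z))) = ((1 - s : ℝ) : ℂ) := by
      rw [inner_smul_right_eq_smul, inner_smul_right, ← h3, ← exp_add, neg_add_cancel, exp_zero]
      simp
    have h6 : inner ℂ (pr z) (s • z) = ((s * ‖z‖ : ℝ) : ℂ) := by
      have e : pr z = (‖z‖⁻¹ : ℝ) • z := by
        simp only [pr, max_eq_right (by linarith : (1 : ℝ) ≤ ‖z‖)]
      rw [inner_smul_right_eq_smul, e, inner_smul_left_eq_smul, inner_self_eq_norm_sq_to_K]
      have hz0 : ‖z‖ ≠ 0 := by positivity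
      simp only [Complex.real_smul, Complex.coe_algebraMap]
      push_cast
      field_simp
    rw [h5, h6] at h4
    have h7 : (1 - s) + s * ‖z‖ = 0 := by exact_mod_cast h4
    nlinarith

end Pool.Agent.Y525.Lef
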